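import Pool.Agent.TH56.CL.Def

/-!
# Relaxed bipartite labellings of trees: definitions and the statements of the parts

As `Pool.Agent.TH56.CL.Def`, for labellings of the tree only (no supertree): the special steps of
the jumps are arbitrary numbers, and nothing is required of the steps which are left out.
-/

set_option autoImplicit false

namespace Pool.Agent.TH56.CR

open Finset Pool.Agent.TH56.CT Pool.Agent.TH56.CL

/-- the steps -/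
structure RGood (m : ℕ) (p : ℕ → ℕ) (Js : Finset ℕ) (M : ℕ) (c : ℕ → Bool) (s : ℕ → ℕ) : Prop where
  zero : s 0 = 0
  last : s m = M
  mono : ∀ i j, i < j → j ≤ m → s i < s j
  cls : ∀ i, 1 ≤ i → i ≤ m → c (s i) ≠ c (s (p i))
  reg : ∀ i, 1 ≤ i → i ≤ m → i ∉ Js → ∀ t, s (p i) < t → t < s i → c t = c (s i)
  inj : ∀ k ∈ Js, ∀ l ∈ Js, sg c s p k = sg c s p l → k = l
  hole : ∀ k ∈ Js, (∃ l ∈ Js, sg c s p k = s l) ∨ (∀ i ≤ m, s i ≠ sg c s p k)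

/-- Part I: the steps exist -/
def WrdStm : Prop := ∀ (m : ℕ) (p : ℕ → ℕ) (Js : Finset ℕ) (q : ℕ → ℕ) (R : ℕ → ℕ → Prop)
  (g : ℕ → ℕ), 1 ≤ m → Enum m p Js → Lvl p Js q → (∀ a b t, R a t → R b t → a = b) →
  (∀ a N, ∃ t, N ≤ t ∧ t < N + g a ∧ R a t) →
  ∃ (M : ℕ) (c : ℕ → Bool) (s : ℕ → ℕ), RGood m p Js M c s ∧ M ≤ m + 2 * ∑ k ∈ Js, (g (q k) + 2)

/-- Part R: disjoint sets with small gaps -/
def ResStm : Prop := ∃ R : ℕ → ℕ → Prop, (∀ a b t, R a t → R b t → a = b) ∧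
  ∀ a N, ∃ t, N ≤ t ∧ t < N + 4 * 2 ^ (a / 2) ∧ R a t

/-- Part C: the cost is linear -/
def CostStm : Prop := ∀ (m : ℕ) (p w : ℕ → ℕ), 1 ≤ m → Ord m p w →
  ∑ k ∈ Jmp m p w, (2 * (4 * 2 ^ (lvl p w k / 2) + 2)) ≤ 20 * (w 0 - 1)

end Pool.Agent.TH56.CR
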